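import Pool.Agent.W950.SC.Lang
import Pool.Agent.NPC.Defs

/-!
# The language is in NP
-/

namespace Pool.Agent.W950.SC

open Turing Computability Pool.Agent.H583R2

theorem polyTime_of_pf {f : List Bool → List Bool} (h : PF f) : Pool.Agent.NPC.PolyTime f := by
  obtain ⟨k, M, hM⟩ := tm_poly (f := f) id h
  refine ⟨⟨M.toTM2ComputableAux,
    Polynomial.C k * (Polynomial.X + Polynomial.C 2) ^ k + Polynomial.C k, fun a => ?_⟩⟩
  have h1 := M.outputsFun a
  refine ⟨h1.toEvalsTo, h1.steps_le_m.trans ((hM _).trans (le_of_eq ?_))⟩
  simp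

/-- the value of the vertex `v` according to the certificate `w` -/
def vl (w : List Bool) (v : ℕ) : ℕ :=
  ((List.range 255).filter fun b => w.getD (v * 255 + b) false).length

theorem vl_lt (w : List Bool) (v : ℕ) : vl w v < 256 := by
  unfold vl
  have h := List.length_filter_le (fun b => w.getD (v * 255 + b) false) (List.range 255)
  rw [List.length_range] at h
  omega

section
variable {α : Type} [TEnc α]

theorem pf_vl {w : α → List Bool} {v : α → ℕ} (hw : PF w) (hv : PF v) :
    PF (fun x => vl (w x) (v x)) :=
  PF.length (PF.filter (f := fun x b => (w x).getD (v x * 255 + b) false) (PF.const _)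
    (PF.listGetD (PF.add (PF.mul (hv.comp PF.fst) (PF.const 255)) PF.snd) (hw.comp PF.fst)
      (PF.const false)))

end

/-- the verifier -/
def ver (K : ℕ) (p : List Bool × List Bool) : Bool :=
  (List.range 4).all fun k =>
    (List.range (sq (dv p.1.length K) * sq (dv p.1.length K))).all fun v =>
      p.1.getD (pos (sq (dv p.1.length K)) k v (vl p.2 v)
        (vl p.2 (hd (sq (dv p.1.length K)) k v))) false

theorem pf_ver (K : ℕ) : PF (ver K) := by
  have hS : PF (fun p : List Bool × List Bool => sq (dv p.1.length K)) :=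
    pf_sq (pf_dv (PF.length PF.fst) (PF.const K))
  refine PF.all (f := fun (p : List Bool × List Bool) k =>
    (List.range (sq (dv p.1.length K) * sq (dv p.1.length K))).all fun v =>
      p.1.getD (pos (sq (dv p.1.length K)) k v (vl p.2 v)
        (vl p.2 (hd (sq (dv p.1.length K)) k v))) false) (PF.const _) ?_
  have hS1 : PF (fun p : (List Bool × List Bool) × ℕ => sq (dv p.1.1.length K)) :=
    hS.comp PF.fst
  refine PF.all (f := fun (p : (List Bool × List Bool) × ℕ) v =>
      p.1.1.getD (pos (sq (dv p.1.1.length K)) p.2 v (vl p.1.2 v)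
        (vl p.1.2 (hd (sq (dv p.1.1.length K)) p.2 v))) false)
      (PF.range (PF.mul hS1 hS1)) ?_
  have f1 : PF (fun p : ((List Bool × List Bool) × ℕ) × ℕ => p.1) := PF.fst
  have f2 : PF (fun p : ((List Bool × List Bool) × ℕ) × ℕ => p.1.1) := PF.fst.comp f1
  have hx : PF (fun p : ((List Bool × List Bool) × ℕ) × ℕ => p.1.1.1) := PF.fst.comp f2
  have hw : PF (fun p : ((List Bool × List Bool) × ℕ) × ℕ => p.1.1.2) := PF.snd.comp f2
  have hk : PF (fun p : ((List Bool × List Bool) × ℕ) × ℕ => p.1.2) := PF.snd.comp f1
  have hv : PF (fun p : ((List Bool × List Bool) × ℕ) × ℕ => p.2) := PF.snd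
  have hS2 : PF (fun p : ((List Bool × List Bool) × ℕ) × ℕ => sq (dv p.1.1.1.length K)) :=
    hS1.comp f1
  exact PF.listGetD (pf_pos hS2 hk hv (pf_vl hw hv) (pf_vl hw (pf_hd hS2 hk hv))) hx
    (PF.const false)

theorem spl_pair (x w : List Bool) : spl (Pool.Agent.NPC.pairBits x w) = (x, w) := by
  unfold spl Pool.Agent.NPC.pairBits
  rw [List.foldl_append, spl_aux1, List.foldl_cons]
  have e : splStep ((false, false), (x.reverse ++ [], [])) false =
      ((true, false), (x.reverse ++ [], [])) := rfl
  rw [e, spl_aux2]
  simp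

theorem exists_witness (M : ℕ) (φ : ℕ → ℕ) (hφ : ∀ w, φ w < 256) :
    ∃ w : List Bool, w.length = M * 255 ∧ ∀ v < M, vl w v = φ v := by
  refine ⟨(List.range (M * 255)).map fun j => decide (j % 255 < φ (j / 255)), by simp, ?_⟩
  intro v hv
  unfold vl
  have h : (List.range 255).filter (fun b =>
      ((List.range (M * 255)).map fun j => decide (j % 255 < φ (j / 255))).getD (v * 255 + b)
        false) = (List.range 255).filter fun b => decide (b < φ v) := by
    refine List.filter_congr fun b hb => ?_
    rw [List.mem_range] at hb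
    have h1 : v * 255 + b < M * 255 := by
      have : (v + 1) * 255 ≤ M * 255 := Nat.mul_le_mul_right _ hv
      omega
    have h2 : (v * 255 + b) / 255 = v := by omega
    have h3 : (v * 255 + b) % 255 = b := by omega
    rw [List.getD_eq_getElem?_getD, List.getElem?_map, List.getElem?_range h1]
    simp only [Option.map_some, Option.getD_some]
    rw [h2, h3]
  rw [h]
  exact count_range 255 (φ v) _ (by have := hφ v; omega) (fun j => decide_eq_true_iff)

theorem ver_iff (K : ℕ) (hK : 262144 ≤ K) (x w : List Bool) : ver K (x, w) = true ↔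
    ∀ k < 4, ∀ v < side K x.length * side K x.length,
      x.getD (pos (side K x.length) k v (vl w v) (vl w (head (side K x.length) k v))) false =
        true := by
  have hS : sq (dv x.length K) = side K x.length := by
    rw [dv_eq _ _ (by omega), sq_eq]
    rfl
  unfold ver
  dsimp only
  rw [hS, List.all_eq_true]
  refine forall_congr' fun k => ?_
  rw [List.mem_range]
  refine imp_congr_right fun hk => ?_
  rw [List.all_eq_true]
  refine forall_congr' fun v => ?_
  rw [List.mem_range]
  refine imp_congr_right fun hv => ?_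
  have hpos : 0 < side K x.length := by
    rcases Nat.eq_zero_or_pos (side K x.length) with h0 | h0
    · rw [h0] at hv
      omega
    · exact h0
  rw [hd_eq _ _ _ hpos]

/-- **The language is in NP.** -/
theorem csp_inNP (K : ℕ) (hK : 262144 ≤ K) :
    Pool.Agent.NPC.InNP {x : List Bool | csp K x = true} := by
  refine ⟨fun z => [ver K (spl z)], Polynomial.X,
    polyTime_of_pf (PF.cons ((pf_ver K).comp (PF.spl PF.id)) (PF.const [])), fun x => ?_⟩
  rw [Set.mem_ofPred_eq, csp_iff, Polynomial.eval_X]
  simp only [spl_pair, List.cons.injEq, and_true]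
  constructor
  · rintro ⟨φ, hφ, h⟩
    obtain ⟨w, hw1, hw2⟩ := exists_witness (side K x.length * side K x.length) φ hφ
    refine ⟨w, ?_, (ver_iff K hK x w).2 fun k hk v hv => ?_⟩
    · have h1 : side K x.length * side K x.length ≤ x.length / K := Nat.sqrt_le _
      have h2 : side K x.length * side K x.length * K ≤ x.length :=
        (Nat.le_div_iff_mul_le (by omega)).1 h1
      rw [hw1]
      nlinarith
    · have hpos : 0 < side K x.length := by
        rcases Nat.eq_zero_or_pos (side K x.length) with h0 | h0
        · rw [h0] at hv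
          omega
        · exact h0
      rw [hw2 v hv, hw2 _ (head_lt _ k v hpos hv)]
      exact h k hk v hv
  · rintro ⟨w, -, hw⟩
    exact ⟨vl w, vl_lt w, (ver_iff K hK x w).1 hw⟩

end Pool.Agent.W950.SC
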