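import Pool.Agent.W950.SC.Circ

/-!
# Every circuit for an invariant function can be made symmetric by copies
-/

namespace Pool.Agent.W950.SC

open Finset Equiv Pool.Agent.W893.SY
open Pool.Agent.W366.SYUp (val_inl val_inr up up_gate up_val E gt)

theorem up_aut {I G : Type} [Group G] [Fintype G] (act : G → I → I) {s : ℕ} (C : Net I Bool s)
    (hmul : ∀ a b, act (a * b) = act a ∘ act b) (b : G) : ∃ α, (up act C).IsAut (act b) α := by
  classical
  let β : Equiv.Perm (Option (G × Fin s)) :=
    Equiv.optionCongr (Equiv.prodCongr (Equiv.mulLeft b) (Equiv.refl _))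
  let α : Equiv.Perm (Fin (Fintype.card G * s + 1)) := (E G s).symm.trans (β.trans (E G s))
  have hα : ∀ o, α (E G s o) = E G s (β o) := by
    intro o
    show E G s (β ((E G s).symm (E G s o))) = _
    rw [Equiv.symm_apply_apply]
  have hβ0 : β none = none := rfl
  have hβ1 : ∀ a g, β (some (a, g)) = some (b * a, g) := fun a g => rfl
  refine ⟨α, ?_, ?_⟩
  · intro q
    obtain ⟨o, rfl⟩ := (E G s).surjective q
    rw [hα, up_gate, up_gate]
    rcases o with _ | ⟨a, g⟩
    · rw [hβ0]
      simp only [gt]
      rw [Sum.map_inr, Prod.map_apply, id, Multiset.map_map]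
      congr 2
      have h1 : (univ : Finset G).val.map (fun a => b * a) = (univ : Finset G).val := by
        have := Multiset.map_univ_val_equiv (Equiv.mulLeft b)
        exact this
      conv_lhs => rw [← h1, Multiset.map_map]
      refine Multiset.map_congr rfl fun a _ => ?_
      show (0, E G s (some (b * a, C.out))) = (0, α (E G s (some (a, C.out))))
      rw [hα, hβ1]
    · rw [hβ1]
      simp only [gt]
      rcases hg : C.gate g with i | ⟨w0, f0⟩
      · rw [Sum.map_inl, Sum.map_inl, Sum.map_inl, hmul]
        rfl
      · rw [Sum.map_inr, Sum.map_inr, Sum.map_inr, Prod.map_apply, Prod.map_apply,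
          Prod.map_apply, Multiset.map_map]
        congr 2
        refine Multiset.map_congr rfl fun p _ => ?_
        show (p.1, E G s (some (b * a, p.2))) = (p.1, α (E G s (some (a, p.2))))
        rw [hα, hβ1]
  · show α (E G s none) = E G s none
    rw [hα, hβ0]

theorem up_out {I G : Type} [Group G] [Fintype G] (act : G → I → I) {s : ℕ} (C : Net I Bool s)
    (x : I → Bool) :
    (up act C).val x (up act C).out = true ↔ ∃ a, C.val (x ∘ act a) C.out = true := by
  classical
  have h1 : (up act C).val x (up act C).out = orFn ((univ.val.map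
      (fun a : G => (0, E G s (some (a, C.out))))).map
        fun p => (p.1, (up act C).val x p.2)) := by
    refine val_inr (up act C) x ?_
    exact up_gate act C none
  rw [h1, orFn, decide_eq_true_iff, Multiset.map_map, Multiset.map_map, Multiset.mem_map]
  constructor
  · rintro ⟨a, -, ha⟩
    refine ⟨a, ?_⟩
    rw [← up_val]
    exact ha
  · rintro ⟨a, ha⟩
    refine ⟨a, Finset.mem_univ _, ?_⟩
    rw [← up_val] at ha
    exact ha

/-- **Symmetrisation by copies.** -/
theorem symmetrise {I : Type} [Finite I] {s : ℕ} (G : Subgroup (Perm I)) (C : Net I Bool s)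
    (F : (I → Bool) → Bool) (hF : ∀ σ ∈ G, ∀ x : I → Bool, F (x ∘ σ) = F x)
    (hC : ∀ x, C.val x C.out = F x) :
    ∃ C' : Net I Bool (Nat.card G * s + 1), (∀ x, C'.val x C'.out = F x) ∧ G ≤ symG C' := by
  classical
  have := Fintype.ofFinite G
  have key : ∃ C' : Net I Bool (Fintype.card G * s + 1),
      (∀ x, C'.val x C'.out = F x) ∧ G ≤ symG C' := by
    refine ⟨up (fun (σ : G) => ((σ : Perm I) : I → I)) C, fun x => ?_, fun σ hσ => ?_⟩
    · rw [Bool.eq_iff_iff, up_out]
      constructor
      · rintro ⟨a, ha⟩
        rw [hC, hF a a.2] at ha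
        exact ha
      · intro h
        refine ⟨1, ?_⟩
        rw [hC]
        exact h
    · exact up_aut (fun (σ : G) => ((σ : Perm I) : I → I)) C (fun a b => rfl) ⟨σ, hσ⟩
  rwa [← Nat.card_eq_fintype_card] at key

end Pool.Agent.W950.SC
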