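import Pool.Agent.H521R3.BI.Marg

/-!
# Moving a twist in the Margulis graph
-/

namespace Pool.Agent.W950.SC

open Finset Equiv Pool.Agent.H521R3.BI

/-- the variables: the points of the torus -/
abbrev V (m : ℕ) := ZMod m × ZMod m
/-- the ends of the four outgoing and the four ingoing edges of a point -/
abbrev J := Fin 4 ⊕ Fin 4
/-- the labellings of the eight ends -/
abbrev D := J → ZMod 2

def par (d : D) : ZMod 2 := ∑ j, d j

theorem par_add (d d' : D) : par (d + d') = par d + par d' := sum_add_distrib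

theorem par_zero : par 0 = 0 := by simp [par]

theorem z2 (x : ZMod 2) : x + x = 0 := CharTwo.add_self_eq_zero x

/-- adding a vector of even weight -/
def Ev (d : D) : Prop := par d = 0 ∧ Perm.sign (Equiv.addRight d : Perm D) = 1

theorem sign_add (d d' : D) : Perm.sign (Equiv.addRight (d + d') : Perm D) =
    Perm.sign (Equiv.addRight d : Perm D) * Perm.sign (Equiv.addRight d' : Perm D) := by
  rw [← Perm.sign_mul]
  congr 1
  ext x : 1
  simp only [coe_addRight, Perm.mul_apply]
  abel

theorem ev_zero : Ev 0 := by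
  refine ⟨par_zero, ?_⟩
  have : (Equiv.addRight (0 : D) : Perm D) = 1 := by ext x : 1; simp
  rw [this, Perm.sign_one]

theorem ev_add {d d' : D} (h : Ev d) (h' : Ev d') : Ev (d + d') := by
  refine ⟨by rw [par_add, h.1, h'.1, add_zero], ?_⟩
  rw [sign_add, h.2, h'.2, mul_one]

theorem sign_single (i j : J) : Perm.sign (Equiv.addRight (Pi.single i 1 : D) : Perm D) =
    Perm.sign (Equiv.addRight (Pi.single j 1 : D) : Perm D) := by
  set ρ : Perm D := Equiv.arrowCongr (Equiv.swap i j) (Equiv.refl _) with hρ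
  have h : (Equiv.addRight (Pi.single j 1 : D) : Perm D) =
      ρ * (Equiv.addRight (Pi.single i 1 : D) : Perm D) * ρ⁻¹ := by
    rw [eq_mul_inv_iff_mul_eq]
    ext x k
    have h1 : ∀ y : D, ρ y k = y (Equiv.swap i j k) := by
      intro y
      simp [hρ, arrowCongr_apply]
    have h2 : Equiv.swap i j k = i ↔ k = j := by
      rw [Equiv.swap_apply_eq_iff, Equiv.swap_apply_left]
    show ρ x k + (Pi.single j 1 : D) k = ρ (x + Pi.single i 1) k
    rw [h1, h1, Pi.add_apply, Pi.single_apply, Pi.single_apply]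
    simp only [h2]
  rw [h, Perm.sign_mul, Perm.sign_mul, Perm.sign_inv, mul_comm (Perm.sign ρ), mul_assoc,
    Int.units_mul_self, mul_one]

theorem par_single (i : J) : par (Pi.single i 1) = 1 := by
  unfold par
  rw [sum_eq_single i]
  · simp
  · intro j _ hj
    simp [Pi.single_eq_of_ne hj]
  · simp

theorem ev_two (i j : J) : Ev (Pi.single i 1 + Pi.single j 1) := by
  refine ⟨?_, ?_⟩
  · rw [par_add, par_single, par_single]; decide
  · rw [sign_add, sign_single i j, Int.units_mul_self]

variable {m : ℕ}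

/-- the change of the edge labels -/
def cob (c : V m → D) (e : Fin 4 × V m) : ZMod 2 :=
  c e.2 (Sum.inl e.1) + c (sg m e.1 e.2) (Sum.inr e.1)

/-- the label of one edge at `u` -/
def tw (u : V m) (e : Fin 4 × V m) : ZMod 2 := if e = (0, u) then 1 else 0

theorem cob_add (c c' : V m → D) : cob (c + c') = cob c + cob c' := by
  funext e
  simp only [cob, Pi.add_apply]
  ring

/-- the twist can be moved from `u` to `w` without touching `S` -/
def Rel (S : Set (V m)) (u w : V m) : Prop :=
  ∃ c : V m → D, (∀ v, Ev (c v)) ∧ (∀ v ∈ S, c v = 0) ∧ cob c = tw u + tw w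

theorem Rel.refl (S : Set (V m)) (u : V m) : Rel S u u := by
  refine ⟨0, fun _ => ev_zero, fun _ _ => rfl, ?_⟩
  funext e
  simp only [cob, Pi.zero_apply, Pi.add_apply, add_zero]
  exact (z2 _).symm

theorem Rel.symm {S : Set (V m)} {u w : V m} (h : Rel S u w) : Rel S w u := by
  obtain ⟨c, h1, h2, h3⟩ := h
  exact ⟨c, h1, h2, by rw [h3, add_comm]⟩

theorem Rel.trans {S : Set (V m)} {u w x : V m} (h : Rel S u w) (h' : Rel S w x) : Rel S u x := by
  obtain ⟨c, h1, h2, h3⟩ := h
  obtain ⟨c', h1', h2', h3'⟩ := h'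
  refine ⟨c + c', fun v => ev_add (h1 v) (h1' v), fun v hv => ?_, ?_⟩
  · rw [Pi.add_apply, h2 v hv, h2' v hv, add_zero]
  · rw [cob_add, h3, h3']
    funext e
    simp only [Pi.add_apply]
    linear_combination z2 (tw w e)

theorem Rel.mono {S T : Set (V m)} (hST : S ⊆ T) {u w : V m} (h : Rel T u w) : Rel S u w := by
  obtain ⟨c, h1, h2, h3⟩ := h
  exact ⟨c, h1, fun v hv => h2 v (hST hv), h3⟩

theorem Rel.step {S : Set (V m)} (k : Fin 4) (v : V m) (hv : v ∉ S) (hw : sg m k v ∉ S) :
    Rel S v (sg m k v) := by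
  generalize hwd : sg m k v = w at hw ⊢
  by_cases hvw : v = w
  · rw [← hvw]; exact Rel.refl S v
  refine ⟨fun x => if x = v then Pi.single (Sum.inl 0) 1 + Pi.single (Sum.inl k) 1
    else if x = w then Pi.single (Sum.inr k) 1 + Pi.single (Sum.inl 0) 1 else 0, ?_, ?_, ?_⟩
  · intro x
    dsimp only
    split_ifs
    · exact ev_two _ _
    · exact ev_two _ _
    · exact ev_zero
  · intro x hx
    have h1 : x ≠ v := fun h => hv (h ▸ hx)
    have h2 : x ≠ w := fun h => hw (h ▸ hx)
    dsimp only
    rw [if_neg h1, if_neg h2]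
  · funext e
    obtain ⟨j, x⟩ := e
    have hinl : ∀ y : V m, (if y = v then Pi.single (Sum.inl 0) 1 + Pi.single (Sum.inl k) 1
        else if y = w then Pi.single (Sum.inr k) 1 + Pi.single (Sum.inl 0) 1 else 0 : D)
          (Sum.inl j) = (if y = v then (if j = 0 then 1 else 0) + (if j = k then 1 else 0)
            else if y = w then (if j = 0 then 1 else 0) else 0) := by
      intro y
      split_ifs <;> simp_all
    have hinr : ∀ y : V m, (if y = v then Pi.single (Sum.inl 0) 1 + Pi.single (Sum.inl k) 1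
        else if y = w then Pi.single (Sum.inr k) 1 + Pi.single (Sum.inl 0) 1 else 0 : D)
          (Sum.inr j) = (if y = v then 0
            else if y = w then (if j = k then 1 else 0) else 0) := by
      intro y
      split_ifs <;> simp_all
    have hB : (if sg m j x = v then 0 else if sg m j x = w then (if j = k then (1 : ZMod 2) else 0)
        else 0) = if x = v then (if j = k then 1 else 0) else 0 := by
      by_cases hj : j = k
      · subst hj
        by_cases hx : x = v
        · subst hx
          rw [hwd, if_neg (Ne.symm hvw)]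
          simp
        · have : sg m j x ≠ w := by
            rw [← hwd]
            exact fun h => hx ((sg m j).injective h)
          rw [if_neg this, if_neg hx]
          simp
      · simp [hj]
    simp only [cob, hinl, hinr, hB, tw, Pi.add_apply, Prod.mk.injEq]
    by_cases hx : x = v
    · have hx' : x ≠ w := fun h => hvw (hx ▸ h)
      have hn : ¬ (j = 0 ∧ x = w) := fun h => hx' h.2
      rw [if_pos hx, if_pos hx, add_assoc, z2, add_zero, if_neg hn, add_zero]
      simp only [hx, and_true]
    · by_cases hx' : x = w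
      · simp [hx', Ne.symm hvw]
      · simp [hx, hx']

/-- `u` is in a large class -/
def Good (S : Finset (V m)) (u : V m) : Prop :=
  u ∉ S ∧ m ^ 2 < 2 * Nat.card {w // w ∉ S ∧ Rel (S : Set (V m)) u w}

theorem Good.mono [NeZero m] {S T : Finset (V m)} (hST : S ⊆ T) {u : V m} (h : Good T u) :
    Good S u := by
  refine ⟨fun h' => h.1 (hST h'), lt_of_lt_of_le h.2 (Nat.mul_le_mul_left 2 ?_)⟩
  refine Nat.card_le_card_of_injective
    (fun w => (⟨w.1, fun h' => w.2.1 (hST h'), w.2.2.mono (by exact_mod_cast hST)⟩ :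
      {w // w ∉ S ∧ Rel (S : Set (V m)) u w})) ?_
  rintro ⟨w, hw⟩ ⟨w', hw'⟩ h
  simpa using h

open Classical in
theorem Good.rel [NeZero m] {S : Finset (V m)} {u w : V m} (hu : Good S u) (hw : Good S w) :
    Rel (S : Set (V m)) u w := by
  have hc : ∀ x, Nat.card {y // y ∉ S ∧ Rel (S : Set (V m)) x y} =
      (univ.filter fun y => y ∉ S ∧ Rel (S : Set (V m)) x y).card := by
    intro x
    rw [Nat.card_eq_fintype_card, Fintype.card_subtype]
  have h1 := hu.2
  have h2 := hw.2
  rw [hc] at h1 h2
  have h3 : (univ : Finset (V m)).card = m ^ 2 := by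
    rw [card_univ, Fintype.card_prod, ZMod.card, sq]
  have h4 := card_union_add_card_inter (univ.filter fun y => y ∉ S ∧ Rel (S : Set (V m)) u y)
    (univ.filter fun y => y ∉ S ∧ Rel (S : Set (V m)) w y)
  have h5 := card_le_card (subset_univ ((univ.filter fun y => y ∉ S ∧ Rel (S : Set (V m)) u y) ∪
    (univ.filter fun y => y ∉ S ∧ Rel (S : Set (V m)) w y)))
  have h6 : 0 < ((univ.filter fun y => y ∉ S ∧ Rel (S : Set (V m)) u y) ∩
    (univ.filter fun y => y ∉ S ∧ Rel (S : Set (V m)) w y)).card := by omega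
  obtain ⟨y, hy⟩ := card_pos.1 h6
  rw [mem_inter, mem_filter, mem_filter] at hy
  exact hy.1.2.2.trans hy.2.2.2.symm

/-- a union of classes -/
def Closed (S A : Finset (V m)) : Prop :=
  (∀ a ∈ A, a ∉ S) ∧ ∀ a ∈ A, ∀ w ∉ S, Rel (S : Set (V m)) a w → w ∈ A

theorem Closed.bound [NeZero m] {S A : Finset (V m)} (h : Closed S A) :
    (A.card : ℝ) * ((m : ℝ) ^ 2 - A.card) ≤ 3200 * (m : ℝ) ^ 2 * S.card := by
  refine (sg_expand m A).trans ?_
  have h1 : ∀ k : Fin 4, ((A.filter (fun v => sg m k v ∉ A)).card : ℝ) ≤ S.card := by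
    intro k
    have h2 : (A.filter (fun v => sg m k v ∉ A)).card ≤ S.card := by
      refine card_le_card_of_injOn (fun v => sg m k v) ?_ (fun x _ y _ h => (sg m k).injective h)
      intro v hv
      rw [mem_coe, mem_filter] at hv
      by_contra hcon
      exact hv.2 (h.2 v hv.1 _ hcon (Rel.step k v (h.1 v hv.1) hcon))
    exact_mod_cast h2
  have h3 : ∑ k, ((A.filter (fun v => sg m k v ∉ A)).card : ℝ) ≤ 4 * S.card := by
    calc _ ≤ ∑ _k : Fin 4, (S.card : ℝ) := sum_le_sum fun k _ => h1 k
      _ = 4 * S.card := by simp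
  have h4 : (0 : ℝ) ≤ 800 * (m : ℝ) ^ 2 := by positivity
  nlinarith [mul_le_mul_of_nonneg_left h3 h4]

open Classical in
/-- after removing few points there is still a large class -/
theorem exists_good [NeZero m] (S : Finset (V m)) (hS : 25600 * S.card < m ^ 2) :
    ∃ u, Good S u := by
  by_contra hcon
  push Not at hcon
  have hN : (univ : Finset (V m)).card = m ^ 2 := by
    rw [card_univ, Fintype.card_prod, ZMod.card, sq]
  -- the class of a point
  have hcls : ∀ u ∉ S, ∃ B : Finset (V m), u ∈ B ∧ Closed S B ∧ 2 * B.card ≤ m ^ 2 := by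
    intro u hu
    refine ⟨univ.filter fun y => y ∉ S ∧ Rel (S : Set (V m)) u y, ?_, ⟨?_, ?_⟩, ?_⟩
    · exact mem_filter.2 ⟨mem_univ _, hu, Rel.refl _ _⟩
    · intro a ha
      exact (mem_filter.1 ha).2.1
    · intro a ha w hw haw
      exact mem_filter.2 ⟨mem_univ _, hw, (mem_filter.1 ha).2.2.trans haw⟩
    · have h1 := hcon u
      unfold Good at h1
      rw [Nat.card_eq_fintype_card, Fintype.card_subtype] at h1
      by_contra h2
      exact h1 ⟨hu, by omega⟩
  obtain ⟨A, hA, hmax⟩ := exists_max_image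
    (univ.filter fun A : Finset (V m) => Closed S A ∧ 2 * A.card ≤ m ^ 2) card
    ⟨∅, mem_filter.2 ⟨mem_univ _, ⟨by simp, by simp⟩, by simp⟩⟩
  rw [mem_filter] at hA
  obtain ⟨-, hA1, hA2⟩ := hA
  have key : ∃ B : Finset (V m), Closed S B ∧ m ^ 2 ≤ 4 * B.card ∧ 2 * B.card ≤ m ^ 2 := by
    by_cases h4 : m ^ 2 ≤ 4 * A.card
    · exact ⟨A, hA1, h4, hA2⟩
    · have hne : (univ \ (S ∪ A)).Nonempty := by
        rw [← card_pos, card_sdiff_of_subset (subset_univ _), hN]
        have := card_union_le S A
        omega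
      obtain ⟨u, hu⟩ := hne
      rw [mem_sdiff, mem_union, not_or] at hu
      obtain ⟨B, huB, hB, hB2⟩ := hcls u hu.2.1
      refine ⟨B, hB, ?_, hB2⟩
      have hAB : Closed S (A ∪ B) := by
        refine ⟨fun a ha => ?_, fun a ha w hw haw => ?_⟩
        · rcases mem_union.1 ha with h | h
          · exact hA1.1 a h
          · exact hB.1 a h
        · rcases mem_union.1 ha with h | h
          · exact mem_union_left _ (hA1.2 a h w hw haw)
          · exact mem_union_right _ (hB.2 a h w hw haw)
      have hlt : A.card < (A ∪ B).card := card_lt_card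
        ⟨subset_union_left, fun h => hu.2.2 (h (mem_union_right _ huB))⟩
      have h6 : ¬ 2 * (A ∪ B).card ≤ m ^ 2 := by
        intro h7
        have := hmax _ (mem_filter.2 ⟨mem_univ _, hAB, h7⟩)
        omega
      have := card_union_le A B
      omega
  obtain ⟨B, hB, hB1, hB2⟩ := key
  have h1 := hB.bound
  have h2 : (m : ℝ) ^ 2 ≤ 4 * B.card := by exact_mod_cast hB1
  have h3 : 2 * (B.card : ℝ) ≤ (m : ℝ) ^ 2 := by exact_mod_cast hB2
  have h4 : 25600 * (S.card : ℝ) < (m : ℝ) ^ 2 := by exact_mod_cast hS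
  have h5 : (0 : ℝ) < (m : ℝ) ^ 2 := by
    have := NeZero.pos m
    positivity
  nlinarith [mul_le_mul h2 (by linarith : (m : ℝ) ^ 2 / 2 ≤ (m : ℝ) ^ 2 - B.card) (by positivity)
    (by positivity)]

end Pool.Agent.W950.SC
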