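import Pool.Agent.W950.SC.Sup
import Pool.Agent.W950.SC.Graph
import Pool.Agent.W366.SY.SYUp
import Pool.Agent.W63.SY.SYSup

/-!
# Circuits and their symmetries
-/

namespace Pool.Agent.W950.SC

open Finset Equiv Pool.Agent.W893.SY Pool.Agent.H521R3.BI
open Pool.Agent.W366.SYUp (val_inl val_inr)

section general

variable {I : Type} {s : ℕ}

theorem isAut_one (C : Net I Bool s) : C.IsAut (1 : Perm I) 1 := by
  refine ⟨fun g => ?_, rfl⟩
  have h3 : (Prod.map id ⇑(1 : Equiv.Perm (Fin s)) : ℕ × Fin s → ℕ × Fin s) = id := by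
    funext q
    rfl
  rw [h3]
  have h4 : (Prod.map (Multiset.map (id : ℕ × Fin s → ℕ × Fin s)) id :
      Multiset (ℕ × Fin s) × (Multiset (ℕ × Bool) → Bool) → _) = id := by
    funext p
    obtain ⟨w, f⟩ := p
    simp
  rw [h4, Perm.coe_one, Perm.coe_one, id, Sum.map_id_id, id]

/-- The symmetries of a circuit which fix a gate. -/
def stabG (C : Net I Bool s) (g : Fin s) : Subgroup (Perm I) where
  carrier := {σ | ∃ α, C.IsAut σ α ∧ α g = g}
  one_mem' := ⟨1, isAut_one C, rfl⟩
  mul_mem' := by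
    rintro a b ⟨α, hα, hαg⟩ ⟨β, hβ, hβg⟩
    refine ⟨α * β, ?_, ?_⟩
    · rw [Perm.coe_mul]
      exact Pool.Agent.W63.SYSup.isAut_mul hα hβ
    · rw [Equiv.Perm.mul_apply, hβg, hαg]
  inv_mem' := by
    rintro a ⟨α, hα, hαg⟩
    refine ⟨α⁻¹, Pool.Agent.W63.SYSup.isAut_inv hα ?_, ?_⟩
    · funext i; simp
    · rw [Equiv.Perm.inv_eq_iff_eq]
      exact hαg.symm

/-- The symmetries of a circuit: the permutations of the input variables which extend to an
automorphism of the circuit. -/
def symG (C : Net I Bool s) : Subgroup (Perm I) where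
  carrier := {σ | ∃ α, C.IsAut σ α}
  one_mem' := ⟨1, isAut_one C⟩
  mul_mem' := by
    rintro a b ⟨α, hα⟩ ⟨β, hβ⟩
    refine ⟨α * β, ?_⟩
    rw [Perm.coe_mul]
    exact Pool.Agent.W63.SYSup.isAut_mul hα hβ
  inv_mem' := by
    rintro a ⟨α, hα⟩
    refine ⟨α⁻¹, Pool.Agent.W63.SYSup.isAut_inv hα ?_⟩
    funext i; simp

theorem val_aut {C : Net I Bool s} {σ : I → I} {α : Perm (Fin s)} (h : C.IsAut σ α) (x : I → Bool)
    (g : Fin s) : C.val x (α g) = C.val (x ∘ σ) g := by
  induction g using WellFoundedLT.induction with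
  | ind g ih =>
    have h1 := h.1 g
    rcases hg : C.gate g with i | ⟨w, f⟩
    · rw [hg, Sum.map_inl] at h1
      rw [val_inl C x h1, val_inl C _ hg]
      rfl
    · rw [hg, Sum.map_inr] at h1
      rw [val_inr C x (w := w.map (Prod.map id α)) (f := f) h1, val_inr C _ hg, Multiset.map_map]
      congr 1
      refine Multiset.map_congr rfl fun p hp => ?_
      obtain ⟨l, c⟩ := p
      simp only [Function.comp_apply, Prod.map_apply, id]
      rw [ih c (C.acyclic g w f hg _ hp)]

/-- a gate has few images -/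
theorem index_stab {Γ : Type} [Group Γ] (C : Net I Bool s) (θ : Γ →* Perm I)
    (g : Fin s) : ((stabG C g).comap θ).index ≤ s * ((symG C).comap θ).index := by
  set H := (symG C).comap θ
  set K := (stabG C g).comap θ
  have hKH : K ≤ H := by
    rintro a ⟨α, hα, -⟩
    exact ⟨α, hα⟩
  rw [← Subgroup.relIndex_mul_index hKH]
  refine Nat.mul_le_mul_right _ ?_
  have h1 : ∀ a : H, ∃ α, C.IsAut (θ a) α := fun a => a.2
  choose α hα using h1
  have h2 : Function.Injective (fun q : H ⧸ K.subgroupOf H => α q.out g) := by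
    intro q r hqr
    have hqr' : α q.out g = α r.out g := hqr
    rw [← QuotientGroup.out_eq' q, ← QuotientGroup.out_eq' r]
    refine QuotientGroup.eq.2 ?_
    rw [Subgroup.mem_subgroupOf]
    refine ⟨(α q.out)⁻¹ * α r.out, ?_, ?_⟩
    · rw [show θ (↑((q.out)⁻¹ * r.out) : Γ) = (θ q.out)⁻¹ * θ r.out by simp, Perm.coe_mul]
      refine Pool.Agent.W63.SYSup.isAut_mul
        (Pool.Agent.W63.SYSup.isAut_inv (hα _) ?_) (hα _)
      funext i; simp
    · rw [Equiv.Perm.mul_apply, Equiv.Perm.inv_eq_iff_eq]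
      exact hqr'.symm
  have h3 := Nat.card_le_card_of_injective _ h2
  rw [Nat.card_eq_fintype_card (α := Fin s), Fintype.card_fin] at h3
  exact h3

end general

end Pool.Agent.W950.SC
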