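import Pool.Agent.H583R2.Expo

/-!
# The language
-/

namespace Pool.Agent.W950.SC

open Turing Computability Pool.Agent.H583R2

/-- The side of the torus used for inputs of length `n`. -/
def side (K n : ℕ) : ℕ := Nat.sqrt (n / K)

/-- The head of the edge number `k < 4` with tail `w`; the point `(x, y)` of the torus of side `m`
is the number `x * m + y`. The four edges lead to `(x+1, y)`, `(x, y+1)`, `(x, y+x)`,
`(x+y, y)`. -/
def head (m k w : ℕ) : ℕ :=
  if k = 0 then (w / m + 1) % m * m + w % m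
  else if k = 1 then w / m * m + (w % m + 1) % m
  else if k = 2 then w / m * m + (w % m + w / m) % m
  else (w / m + w % m) % m * m + w % m

/-- The input position which says whether the pair of values `(b, b')` is allowed at the edge
number `k` with tail `w`. -/
def pos (m k w b b' : ℕ) : ℕ := ((k * (m * m) + w) * 256 + b) * 256 + b'

open Classical in
/-- The constraint satisfaction problem. -/
noncomputable def csp (K : ℕ) (x : List Bool) : Bool :=
  decide (∃ φ : ℕ → ℕ, (∀ w, φ w < 256) ∧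
    ∀ k < 4, ∀ w < side K x.length * side K x.length,
      x.getD (pos (side K x.length) k w (φ w) (φ (head (side K x.length) k w))) false = true)

theorem csp_iff (K : ℕ) (x : List Bool) : csp K x = true ↔ ∃ φ : ℕ → ℕ, (∀ w, φ w < 256) ∧
    ∀ k < 4, ∀ w < side K x.length * side K x.length,
      x.getD (pos (side K x.length) k w (φ w) (φ (head (side K x.length) k w))) false = true := by
  classical
  unfold csp
  rw [decide_eq_true_eq]

/-- Output encoding of a bit: the string of length one. -/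
def encBit (b : Bool) : List Bool := [b]

/-- `B ∈ E = DTIME(2^{O(n)})`. -/
def InE (B : List Bool → Bool) : Prop :=
  ∃ c : ℕ, ∃ M : TM2ComputableInTime (id : List Bool → List Bool) encBit B,
    ∀ n, M.time n ≤ 2 ^ (c * n + c)

/-! ### arithmetic by counting -/

def dv (a b : ℕ) : ℕ := ((List.range a).filter fun j => decide ((j + 1) * b ≤ a)).length
def md (a b : ℕ) : ℕ := a - dv a b * b
def sq (a : ℕ) : ℕ := ((List.range a).filter fun j => decide ((j + 1) * (j + 1) ≤ a)).length

theorem count_range (a q : ℕ) (p : ℕ → Bool) (hq : q ≤ a) (hp : ∀ j, p j = true ↔ j < q) :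
    ((List.range a).filter p).length = q := by
  have h1 : (List.range a).filter p = List.range q := by
    obtain ⟨e, rfl⟩ := Nat.exists_eq_add_of_le hq
    rw [List.range_add, List.filter_append]
    have e1 : (List.range q).filter p = List.range q := by
      rw [List.filter_eq_self]
      intro j hj
      exact (hp j).2 (List.mem_range.1 hj)
    have e2 : ((List.range e).map (fun x => q + x)).filter p = [] := by
      rw [List.filter_eq_nil_iff]
      intro j hj
      rw [List.mem_map] at hj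
      obtain ⟨x, _, rfl⟩ := hj
      rw [hp]
      omega
    rw [e1, e2, List.append_nil]
  rw [h1, List.length_range]

theorem dv_eq (a b : ℕ) (hb : 0 < b) : dv a b = a / b := by
  refine count_range a (a / b) _ (Nat.div_le_self _ _) fun j => ?_
  rw [decide_eq_true_eq, ← Nat.succ_le_iff, Nat.succ_eq_add_one, Nat.le_div_iff_mul_le hb]

theorem md_eq (a b : ℕ) (hb : 0 < b) : md a b = a % b := by
  unfold md
  rw [dv_eq a b hb]
  have := Nat.div_add_mod a b
  rw [mul_comm] at this
  omega

theorem sq_eq (a : ℕ) : sq a = Nat.sqrt a := by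
  refine count_range a _ _ (Nat.sqrt_le_self _) fun j => ?_
  rw [decide_eq_true_eq, ← Nat.succ_le_iff, Nat.succ_eq_add_one, Nat.le_sqrt]

section
variable {α : Type} [TEnc α]

theorem pf_dv {a b : α → ℕ} (ha : PF a) (hb : PF b) : PF (fun x => dv (a x) (b x)) :=
  PF.length (PF.filter (f := fun x j => decide ((j + 1) * b x ≤ a x)) (PF.range ha)
    (PF.le (PF.mul (PF.succ PF.snd) (hb.comp PF.fst)) (ha.comp PF.fst)))

theorem pf_md {a b : α → ℕ} (ha : PF a) (hb : PF b) : PF (fun x => md (a x) (b x)) :=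
  PF.sub ha (PF.mul (pf_dv ha hb) hb)

theorem pf_sq {a : α → ℕ} (ha : PF a) : PF (fun x => sq (a x)) :=
  PF.length (PF.filter (f := fun x j => decide ((j + 1) * (j + 1) ≤ a x)) (PF.range ha)
    (PF.le (PF.mul (PF.succ PF.snd) (PF.succ PF.snd)) (ha.comp PF.fst)))

def hd (m k w : ℕ) : ℕ :=
  if decide (k = 0) then md (dv w m + 1) m * m + md w m
  else if decide (k = 1) then dv w m * m + md (md w m + 1) m
  else if decide (k = 2) then dv w m * m + md (md w m + dv w m) m
  else md (dv w m + md w m) m * m + md w m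

theorem hd_eq (m k w : ℕ) (hm : 0 < m) : hd m k w = head m k w := by
  unfold hd head
  simp only [decide_eq_true_eq, dv_eq _ _ hm, md_eq _ _ hm]

theorem pf_hd {m k w : α → ℕ} (hm : PF m) (hk : PF k) (hw : PF w) :
    PF (fun x => hd (m x) (k x) (w x)) :=
  PF.ite (PF.natEq hk (PF.const 0))
    (PF.add (PF.mul (pf_md (PF.succ (pf_dv hw hm)) hm) hm) (pf_md hw hm))
    (PF.ite (PF.natEq hk (PF.const 1))
      (PF.add (PF.mul (pf_dv hw hm) hm) (pf_md (PF.succ (pf_md hw hm)) hm))
      (PF.ite (PF.natEq hk (PF.const 2))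
        (PF.add (PF.mul (pf_dv hw hm) hm) (pf_md (PF.add (pf_md hw hm) (pf_dv hw hm)) hm))
        (PF.add (PF.mul (pf_md (PF.add (pf_dv hw hm) (pf_md hw hm)) hm) hm) (pf_md hw hm))))

theorem pf_pos {m k w b b' : α → ℕ} (hm : PF m) (hk : PF k) (hw : PF w) (hb : PF b) (hb' : PF b') :
    PF (fun x => pos (m x) (k x) (w x) (b x) (b' x)) :=
  PF.add (PF.mul (PF.add (PF.mul (PF.add (PF.mul hk (PF.mul hm hm)) hw) (PF.const 256)) hb)
    (PF.const 256)) hb'

/-- the digit number `w` of `t`, in base `256`, when `256 ^ w ≤ N` -/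
def dig (N t w : ℕ) : ℕ := md (dv t (min (256 ^ w) N)) 256

theorem pf_dig {N t w : α → ℕ} (hN : PF N) (ht : PF t) (hw : PF w) :
    PF (fun x => dig (N x) (t x) (w x)) :=
  pf_md (pf_dv ht (pf_cpow (PF.const 256) hw hN)) (PF.const 256)

/-- brute force -/
def brute (K : ℕ) (p : List Bool × ℕ) : Bool :=
  (List.range p.2).any fun t => (List.range 4).all fun k =>
    (List.range (sq (dv p.1.length K) * sq (dv p.1.length K))).all fun w =>
      p.1.getD (pos (sq (dv p.1.length K)) k w (dig p.2 t w)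
        (dig p.2 t (hd (sq (dv p.1.length K)) k w))) false

theorem pf_brute (K : ℕ) : PF (brute K) := by
  have hS : PF (fun p : List Bool × ℕ => sq (dv p.1.length K)) :=
    pf_sq (pf_dv (PF.length PF.fst) (PF.const K))
  refine PF.any (f := fun (p : List Bool × ℕ) t => (List.range 4).all fun k =>
    (List.range (sq (dv p.1.length K) * sq (dv p.1.length K))).all fun w =>
      p.1.getD (pos (sq (dv p.1.length K)) k w (dig p.2 t w)
        (dig p.2 t (hd (sq (dv p.1.length K)) k w))) false) (PF.range PF.snd) ?_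
  refine PF.all (f := fun (p : (List Bool × ℕ) × ℕ) k =>
    (List.range (sq (dv p.1.1.length K) * sq (dv p.1.1.length K))).all fun w =>
      p.1.1.getD (pos (sq (dv p.1.1.length K)) k w (dig p.1.2 p.2 w)
        (dig p.1.2 p.2 (hd (sq (dv p.1.1.length K)) k w))) false) (PF.const _) ?_
  have hS1 : PF (fun p : ((List Bool × ℕ) × ℕ) × ℕ => sq (dv p.1.1.1.length K)) :=
    hS.comp (PF.fst.comp PF.fst)
  refine PF.all (f := fun (p : ((List Bool × ℕ) × ℕ) × ℕ) w =>
      p.1.1.1.getD (pos (sq (dv p.1.1.1.length K)) p.2 w (dig p.1.1.2 p.1.2 w)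
        (dig p.1.1.2 p.1.2 (hd (sq (dv p.1.1.1.length K)) p.2 w))) false)
      (PF.range (PF.mul hS1 hS1)) ?_
  have f1 : PF (fun p : (((List Bool × ℕ) × ℕ) × ℕ) × ℕ => p.1) := PF.fst
  have f2 : PF (fun p : (((List Bool × ℕ) × ℕ) × ℕ) × ℕ => p.1.1) := PF.fst.comp f1
  have f3 : PF (fun p : (((List Bool × ℕ) × ℕ) × ℕ) × ℕ => p.1.1.1) := PF.fst.comp f2
  have hN : PF (fun p : (((List Bool × ℕ) × ℕ) × ℕ) × ℕ => p.1.1.1.2) := PF.snd.comp f3
  have hx : PF (fun p : (((List Bool × ℕ) × ℕ) × ℕ) × ℕ => p.1.1.1.1) := PF.fst.comp f3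
  have ht : PF (fun p : (((List Bool × ℕ) × ℕ) × ℕ) × ℕ => p.1.1.2) := PF.snd.comp f2
  have hk : PF (fun p : (((List Bool × ℕ) × ℕ) × ℕ) × ℕ => p.1.2) := PF.snd.comp f1
  have hw : PF (fun p : (((List Bool × ℕ) × ℕ) × ℕ) × ℕ => p.2) := PF.snd
  have hS2 : PF (fun p : (((List Bool × ℕ) × ℕ) × ℕ) × ℕ => sq (dv p.1.1.1.1.length K)) :=
    hS1.comp f1
  exact PF.listGetD (pf_pos hS2 hk hw (pf_dig hN ht hw) (pf_dig hN ht (pf_hd hS2 hk hw))) hx
    (PF.const false)

end

/-! ### brute force is correct -/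

theorem digits (φ : ℕ → ℕ) (hφ : ∀ w, φ w < 256) (M : ℕ) :
    ∃ t < 256 ^ M, ∀ w < M, t / 256 ^ w % 256 = φ w := by
  induction M with
  | zero => exact ⟨0, by simp, by simp⟩
  | succ M ih =>
    obtain ⟨t, ht, h⟩ := ih
    refine ⟨t + φ M * 256 ^ M, ?_, fun w hw => ?_⟩
    · have := hφ M
      rw [pow_succ]
      have h1 : φ M * 256 ^ M ≤ 255 * 256 ^ M := Nat.mul_le_mul_right _ (by omega)
      omega
    · rcases Nat.lt_succ_iff_lt_or_eq.1 hw with h1 | h1
      · obtain ⟨d, rfl⟩ := Nat.exists_eq_add_of_lt h1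
        rw [← h w h1]
        have e : t + φ (w + d + 1) * 256 ^ (w + d + 1) =
            t + 256 ^ w * (256 * (φ (w + d + 1) * 256 ^ d)) := by ring
        rw [e, Nat.add_mul_div_left _ _ (by positivity), Nat.add_mul_mod_self_left]
      · subst h1
        rw [Nat.add_mul_div_right _ _ (by positivity), Nat.div_eq_of_lt ht, zero_add]
        exact Nat.mod_eq_of_lt (hφ w)

theorem head_lt (m k w : ℕ) (hm : 0 < m) (hw : w < m * m) : head m k w < m * m := by
  have h1 : w / m < m := Nat.div_lt_of_lt_mul hw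
  have h2 : ∀ a b, a < m → b < m → a * m + b < m * m := by
    intro a b ha hb
    have : (a + 1) * m ≤ m * m := Nat.mul_le_mul_right _ ha
    rw [add_mul, one_mul] at this
    omega
  have h3 : ∀ a, a % m < m := fun a => Nat.mod_lt _ hm
  unfold head
  split_ifs <;> exact h2 _ _ (by first | exact h3 _ | exact h1) (h3 _)

theorem brute_eq (K : ℕ) (hK : 262144 ≤ K) (x : List Bool) :
    csp K x = brute K (x, 2 ^ x.length) := by
  have hS : sq (dv x.length K) = side K x.length := by
    rw [dv_eq _ _ (by omega), sq_eq]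
    rfl
  rw [Bool.eq_iff_iff, csp_iff]
  unfold brute
  dsimp only
  rw [hS, List.any_eq_true]
  set m := side K x.length with hm
  rcases Nat.eq_zero_or_pos m with h0 | hpos
  · rw [h0]
    refine ⟨fun _ => ⟨0, by simp, by simp⟩, fun _ => ⟨fun _ => 0, fun _ => by norm_num, ?_⟩⟩
    intro k _ w hw
    simp at hw
  -- the digits
  have hmn : 8 * (m * m) ≤ x.length := by
    have h1 : m * m ≤ x.length / K := Nat.sqrt_le _
    have h2 : m * m * K ≤ x.length := (Nat.le_div_iff_mul_le (by omega)).1 h1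
    nlinarith
  have hp : ∀ w, w ≤ m * m → 256 ^ w ≤ 2 ^ x.length := by
    intro w hw
    rw [show (256 : ℕ) = 2 ^ 8 by norm_num, ← pow_mul]
    exact Nat.pow_le_pow_right (by norm_num) (by omega)
  have hdig : ∀ t w, w < m * m → dig (2 ^ x.length) t w = t / 256 ^ w % 256 := by
    intro t w hw
    unfold dig
    rw [min_eq_left (hp w hw.le), md_eq _ _ (by norm_num), dv_eq _ _ (by positivity)]
  constructor
  · rintro ⟨φ, hφ, h⟩
    obtain ⟨t, ht, htw⟩ := digits φ hφ (m * m)
    refine ⟨t, List.mem_range.2 (ht.trans_le (hp _ le_rfl)), ?_⟩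
    rw [List.all_eq_true]
    intro k hk
    rw [List.all_eq_true]
    intro w hw
    rw [List.mem_range] at hk hw
    have h1 := head_lt m k w hpos hw
    rw [hd_eq _ _ _ hpos, hdig _ _ hw, hdig _ _ h1, htw _ hw, htw _ h1]
    exact h k hk w hw
  · rintro ⟨t, -, ht⟩
    refine ⟨fun w => t / 256 ^ w % 256, fun w => Nat.mod_lt _ (by norm_num), fun k hk w hw => ?_⟩
    rw [List.all_eq_true] at ht
    have h1 := ht k (List.mem_range.2 hk)
    rw [List.all_eq_true] at h1
    have h2 := h1 w (List.mem_range.2 hw)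
    have h3 := head_lt m k w hpos hw
    rw [hd_eq _ _ _ hpos, hdig _ _ hw, hdig _ _ h3] at h2
    exact h2

theorem csp_inE (K : ℕ) (hK : 262144 ≤ K) : InE (csp K) := by
  obtain ⟨k, M, hM⟩ := tm_exp (f := csp K) encBit (fun n => n) (PF.length PF.id)
    (g := fun p => [brute K p]) (PF.cons (pf_brute K) (PF.const []))
    (by
      intro x
      rw [← brute_eq K hK x]
      rfl)
  obtain ⟨c, hc⟩ := two_pow_norm k 1 2
  refine ⟨c, M, fun n => (hM n).trans (le_trans ?_ (hc n))⟩
  have h : n + 2 ^ n + 2 ≤ 2 ^ (1 * n + 2) := by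
    have h1 := Nat.lt_two_pow_self (n := n)
    rw [one_mul, pow_add]
    have h2 : 1 ≤ 2 ^ n := Nat.one_le_two_pow
    omega
  exact Nat.add_le_add_right (Nat.mul_le_mul_left _ (Nat.pow_le_pow_left h _)) _

end Pool.Agent.W950.SC
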