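import Pool.Agent.W950.SC.Main
import Pool.Agent.W950.SC.Lang

/-!
# The language and its symmetries
-/

namespace Pool.Agent.W950.SC

open Finset Equiv Pool.Agent.W893.SY Pool.Agent.H521R3.BI Pool.Agent.H518R4.UG
open Pool.Agent.W366.SYUp (val_inl val_inr up up_gate up_val E gt)

/-! ### the torus -/

section torus

variable {m : ℕ} [NeZero m]

/-- the number of a point -/
def cv (v : V m) : ℕ := v.1.val * m + v.2.val

theorem cv_div (v : V m) : cv v / m = v.1.val ∧ cv v % m = v.2.val := by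
  have h := ZMod.val_lt v.2
  unfold cv
  constructor
  · rw [mul_comm, Nat.mul_add_div (NeZero.pos m), Nat.div_eq_of_lt h, add_zero]
  · rw [mul_comm, Nat.mul_add_mod, Nat.mod_eq_of_lt h]

theorem cv_lt (v : V m) : cv v < m * m := by
  have h1 := ZMod.val_lt v.1
  have h2 := ZMod.val_lt v.2
  unfold cv
  have : (v.1.val + 1) * m ≤ m * m := Nat.mul_le_mul_right _ h1
  rw [add_mul, one_mul] at this
  omega

theorem cv_inj : Function.Injective (cv : V m → ℕ) := by
  intro v w h
  have h1 := cv_div v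
  have h2 := cv_div w
  rw [h] at h1
  exact Prod.ext (ZMod.val_injective m (h1.1.symm.trans h2.1))
    (ZMod.val_injective m (h1.2.symm.trans h2.2))

theorem cv_surj (w : ℕ) (hw : w < m * m) : ∃ v : V m, cv v = w := by
  refine ⟨((w / m : ℕ), (w % m : ℕ)), ?_⟩
  unfold cv
  rw [ZMod.val_natCast, ZMod.val_natCast, Nat.mod_eq_of_lt (Nat.div_lt_of_lt_mul hw),
    Nat.mod_mod, mul_comm, Nat.div_add_mod]

theorem head_cv (k : Fin 4) (v : V m) : head m k (cv v) = cv (sg m k v) := by
  obtain ⟨h1, h2⟩ := cv_div v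
  have hone : ∀ a : ZMod m, (a + 1).val = (a.val + 1) % m := by
    intro a
    rw [ZMod.val_add, ZMod.val_one_eq_one_mod, Nat.add_mod_mod]
  unfold head
  rw [h1, h2]
  fin_cases k
  · show _ = cv (cexp_s1 v)
    simp [cexp_s1, cv, hone]
  · show _ = cv (cexp_s2 v)
    simp [cexp_s2, cv, hone]
  · show _ = cv (cexp_s3 v)
    simp [cexp_s3, cv, ZMod.val_add]
  · show _ = cv (cexp_s4 v)
    simp [cexp_s4, cv, ZMod.val_add]

end torus

theorem pos_lt {m k w b b' : ℕ} (hk : k < 4) (hw : w < m * m) (hb : b < 256) (hb' : b' < 256) :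
    pos m k w b b' < 262144 * (m * m) := by
  unfold pos
  generalize m * m = M at *
  interval_cases k <;> omega

theorem pos_inj {m k w b c k' w' b' c' : ℕ} (hw : w < m * m) (hw' : w' < m * m) (hb : b < 256)
    (hb' : b' < 256) (hc : c < 256) (hc' : c' < 256) (h : pos m k w b c = pos m k' w' b' c') :
    k = k' ∧ w = w' ∧ b = b' ∧ c = c' := by
  unfold pos at h
  have h1 : k * (m * m) + w = k' * (m * m) + w' := by omega
  have h2 : k = k' := by
    have h3 : (k * (m * m) + w) / (m * m) = k := by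
      rw [mul_comm, Nat.mul_add_div (by omega), Nat.div_eq_of_lt hw, add_zero]
    have h4 : (k' * (m * m) + w') / (m * m) = k' := by
      rw [mul_comm, Nat.mul_add_div (by omega), Nat.div_eq_of_lt hw', add_zero]
    rw [← h3, ← h4, h1]
  subst h2
  exact ⟨rfl, by omega, by omega, by omega⟩

theorem pos_surj {m j : ℕ} (h : j < 262144 * (m * m)) :
    ∃ k < 4, ∃ w < m * m, ∃ b < 256, ∃ b' < 256, pos m k w b b' = j := by
  refine ⟨j / 65536 / (m * m), ?_, j / 65536 % (m * m), ?_, j / 256 % 256,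
    Nat.mod_lt _ (by norm_num), j % 256, Nat.mod_lt _ (by norm_num), ?_⟩
  · apply Nat.div_lt_of_lt_mul
    omega
  · apply Nat.mod_lt
    omega
  · unfold pos
    have := Nat.div_add_mod' (j / 65536) (m * m)
    omega

variable {m : ℕ} [NeZero m] {n : ℕ}

/-- the input positions -/
def emb (h : 262144 * (m * m) ≤ n) : Idx m (Fin 256) ↪ Fin n where
  toFun i := ⟨pos m i.1 (cv i.2.1) i.2.2.1 i.2.2.2,
    (pos_lt i.1.2 (cv_lt _) i.2.2.1.2 i.2.2.2.2).trans_le h⟩
  inj' := by
    rintro ⟨k, v, b, c⟩ ⟨k', v', b', c'⟩ hh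
    obtain ⟨h1, h2, h3, h4⟩ := pos_inj (cv_lt v) (cv_lt v') b.2 b'.2 c.2 c'.2 (Fin.mk.inj hh)
    obtain rfl : k = k' := Fin.ext h1
    obtain rfl : v = v' := cv_inj h2
    obtain rfl : b = b' := Fin.ext h3
    obtain rfl : c = c' := Fin.ext h4
    rfl

theorem emb_val (h : 262144 * (m * m) ≤ n) (k : Fin 4) (v : V m) (b c : Fin 256) :
    (emb h (k, v, b, c) : ℕ) = pos m k (cv v) b c := rfl

/-- a renaming of the values, which may be different at different points -/
def IsRenaming (K n : ℕ) (σ : Perm (Fin n)) : Prop :=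
  ∃ a : ℕ → Perm (Fin 256), (∀ w, a w ∈ alternatingGroup (Fin 256)) ∧
    (∀ k < 4, ∀ w < side K n * side K n, ∀ (b b' : Fin 256) (j : Fin n),
      (j : ℕ) = pos (side K n) k w b b' →
        (σ j : ℕ) = pos (side K n) k w (a w b) (a (head (side K n) k w) b')) ∧
    ∀ j : Fin n, 262144 * (side K n * side K n) ≤ (j : ℕ) → σ j = j

theorem mem_range_ren (h : 262144 * (m * m) ≤ n) (K : ℕ) (hm : side K n = m) (σ : Perm (Fin n)) :
    σ ∈ (ren (emb h)).range ↔ IsRenaming K n σ := by
  unfold IsRenaming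
  rw [hm]
  constructor
  · rintro ⟨a, rfl⟩
    classical
    refine ⟨fun w => if hw : w < m * m then (a (cv_surj w hw).choose : Perm (Fin 256)) else 1,
      ?_, ?_, ?_⟩
    · intro w
      dsimp only
      split_ifs with hw
      · exact (a _).2
      · exact one_mem _
    · have hcv : ∀ v : V m, (if hw : cv v < m * m then
          (a (cv_surj (cv v) hw).choose : Perm (Fin 256)) else 1) = a v := by
        intro v
        rw [dif_pos (cv_lt v), cv_inj (cv_surj (cv v) (cv_lt v)).choose_spec]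
      intro k hk w hw b b' j hj
      obtain ⟨v, rfl⟩ := cv_surj (m := m) w hw
      obtain rfl : j = emb h (⟨k, hk⟩, v, b, b') := Fin.ext hj
      rw [ren_apply, Perm.viaEmbedding_apply]
      have h1 := head_cv ⟨k, hk⟩ v
      dsimp only at h1 ⊢
      rw [h1, hcv, hcv]
      rfl
    · intro j hj
      rw [ren_apply, Perm.viaEmbedding_apply_of_notMem]
      rintro ⟨i, rfl⟩
      have := pos_lt i.1.2 (cv_lt i.2.1) i.2.2.1.2 i.2.2.2.2
      rw [show ((emb h i : Fin n) : ℕ) = pos m i.1 (cv i.2.1) i.2.2.1 i.2.2.2 from rfl] at hj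
      omega
  · rintro ⟨a, ha, h1, h2⟩
    refine ⟨fun v => ⟨a (cv v), ha _⟩, ?_⟩
    ext j
    rw [ren_apply]
    by_cases hj : (j : ℕ) < 262144 * (m * m)
    · obtain ⟨k, hk, w, hw, b, hb, b', hb', hp⟩ := pos_surj hj
      obtain ⟨v, rfl⟩ := cv_surj (m := m) w hw
      obtain rfl : j = emb h (⟨k, hk⟩, v, ⟨b, hb⟩, ⟨b', hb'⟩) := Fin.ext hp.symm
      rw [Perm.viaEmbedding_apply, h1 k hk _ hw ⟨b, hb⟩ ⟨b', hb'⟩ _ rfl]
      have h3 := head_cv ⟨k, hk⟩ v
      dsimp only at h3
      rw [h3]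
      rfl
    · rw [Perm.viaEmbedding_apply_of_notMem, h2 j (not_lt.1 hj)]
      rintro ⟨i, rfl⟩
      exact hj (pos_lt i.1.2 (cv_lt i.2.1) i.2.2.1.2 i.2.2.2.2)

/-- the problem in terms of the torus -/
theorem csp_fin (h : 262144 * (m * m) ≤ n) (K : ℕ) (hm : side K n = m) (x : Fin n → Bool) :
    csp K (List.ofFn x) = true ↔
      ∃ φ : V m → Fin 256, ∀ k v, x (emb h (k, v, φ v, φ (sg m k v))) = true := by
  rw [csp_iff, List.length_ofFn, hm]
  have hget : ∀ (k : Fin 4) (v : V m) (b b' : Fin 256),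
      (List.ofFn x).getD (pos m k (cv v) b b') false = x (emb h (k, v, b, b')) := by
    intro k v b b'
    have hlt := (pos_lt k.2 (cv_lt v) b.2 b'.2).trans_le h
    rw [List.getD_eq_getElem _ _ (by rwa [List.length_ofFn]), List.getElem_ofFn]
    rfl
  constructor
  · rintro ⟨φ, h1, h2⟩
    refine ⟨fun v => ⟨φ (cv v), h1 _⟩, fun k v => ?_⟩
    rw [← hget, ← h2 k k.2 (cv v) (cv_lt v), head_cv]
  · rintro ⟨φ, h1⟩
    classical
    refine ⟨fun w => if hw : w < m * m then (φ (cv_surj w hw).choose : ℕ) else 0, ?_, ?_⟩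
    · intro w
      dsimp only
      split_ifs
      · exact (φ _).2
      · norm_num
    · have hcv : ∀ v : V m, (if hw : cv v < m * m then
          (φ (cv_surj (cv v) hw).choose : ℕ) else 0) = φ v := by
        intro v
        rw [dif_pos (cv_lt v), cv_inj (cv_surj (cv v) (cv_lt v)).choose_spec]
      intro k hk w hw
      obtain ⟨v, rfl⟩ := cv_surj (m := m) w hw
      have h3 := head_cv ⟨k, hk⟩ v
      dsimp only at h3 ⊢
      rw [h3, hcv, hcv, ← h1 ⟨k, hk⟩ v]
      exact hget ⟨k, hk⟩ v _ _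

/-- the problem is invariant under renamings -/
theorem csp_ren (h : 262144 * (m * m) ≤ n) (K : ℕ) (hm : side K n = m) (x : Fin n → Bool)
    (a : V m → alternatingGroup (Fin 256)) :
    csp K (List.ofFn (x ∘ ren (emb h) a)) = csp K (List.ofFn x) := by
  rw [Bool.eq_iff_iff, csp_fin h K hm, csp_fin h K hm]
  constructor
  · rintro ⟨φ, h1⟩
    refine ⟨fun v => (a v : Perm (Fin 256)) (φ v), fun k v => ?_⟩
    rw [← h1 k v, Function.comp_apply, ren_apply, Perm.viaEmbedding_apply]
    rfl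
  · rintro ⟨φ, h1⟩
    refine ⟨fun v => ((a v : Perm (Fin 256)))⁻¹ (φ v), fun k v => ?_⟩
    rw [← h1 k v, Function.comp_apply, ren_apply, Perm.viaEmbedding_apply]
    simp [actP]

/-- labellings and values -/
noncomputable def ed : D ≃ Fin 256 := Fintype.equivFinOfCardEq (by
  rw [Fintype.card_fun, ZMod.card]; rfl)

theorem csp_zero (h : 262144 * (m * m) ≤ n) (K : ℕ) (hm : side K n = m) :
    csp K (List.ofFn (ext (emb h) (X ed 0))) = true := by
  rw [csp_fin h K hm]
  refine ⟨fun _ => ed 0, fun k v => ?_⟩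
  rw [ext_apply]
  simp [X, par_zero]

theorem csp_tw (h : 262144 * (m * m) ≤ n) (K : ℕ) (hm : side K n = m) (v : V m) :
    csp K (List.ofFn (ext (emb h) (X ed (tw v)))) = false := by
  rw [Bool.eq_false_iff, ne_eq, csp_fin h K hm]
  rintro ⟨φ, h1⟩
  have h2 : ∀ k w, par (ed.symm (φ w)) = 0 ∧ ed.symm (φ w) (Sum.inl k) +
      ed.symm (φ (sg m k w)) (Sum.inr k) = tw v (k, w) := by
    intro k w
    have h3 := h1 k w
    rw [ext_apply] at h3
    simp only [X, decide_eq_true_eq] at h3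
    exact ⟨h3.1, h3.2.2⟩
  have h4 : ∑ k : Fin 4, ∑ w : V m, tw v (k, w) = 1 := by
    rw [Finset.sum_eq_single 0]
    · rw [Finset.sum_eq_single v]
      · simp [tw]
      · intro w _ hw
        simp [tw, hw]
      · simp
    · intro k _ hk
      refine Finset.sum_eq_zero fun w _ => ?_
      simp [tw, hk]
    · simp
  have h5 : ∑ k : Fin 4, ∑ w : V m, tw v (k, w) = ∑ w : V m, par (ed.symm (φ w)) := by
    have h6 : ∀ k : Fin 4, ∑ w : V m, tw v (k, w) =
        ∑ w : V m, (ed.symm (φ w) (Sum.inl k) + ed.symm (φ w) (Sum.inr k)) := by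
      intro k
      rw [Finset.sum_congr rfl fun w _ => (h2 k w).2.symm, Finset.sum_add_distrib,
        Finset.sum_add_distrib]
      congr 1
      exact Equiv.sum_comp (sg m k) (fun w => ed.symm (φ w) (Sum.inr k))
    rw [Finset.sum_congr rfl fun k _ => h6 k, Finset.sum_comm]
    refine Finset.sum_congr rfl fun w _ => ?_
    rw [Finset.sum_add_distrib, par, Fintype.sum_sum_type]
  rw [h4, Finset.sum_congr rfl fun w _ => (h2 0 w).1, Finset.sum_const_zero] at h5
  exact one_ne_zero h5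

end Pool.Agent.W950.SC
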