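import Pool.Agent.W950.SC.Circ

/-!
# The twisted instance cannot be seen by gates with small support
-/

namespace Pool.Agent.W950.SC

open Finset Equiv Pool.Agent.W893.SY Pool.Agent.H521R3.BI
open Pool.Agent.W366.SYUp (val_inl val_inr)

section conj

variable {I : Type} {s : ℕ} {ι P : Type} [Group P] [DecidableEq ι]

omit [DecidableEq ι] in
theorem mem_comap_aut (C : Net I Bool s) (θ : (ι → P) →* Perm I) (a b : ι → P) (α : Perm (Fin s))
    (hα : C.IsAut (θ a) α) (h : Fin s) :
    b ∈ (stabG C (α h)).comap θ ↔ a⁻¹ * b * a ∈ (stabG C h).comap θ := by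
  have hα' : C.IsAut (θ a⁻¹) α⁻¹ := by
    refine Pool.Agent.W63.SYSup.isAut_inv hα ?_
    funext i; simp
  constructor
  · rintro ⟨β, hβ, hβh⟩
    refine ⟨α⁻¹ * β * α, ?_, ?_⟩
    · rw [map_mul, map_mul, Perm.coe_mul, Perm.coe_mul]
      exact Pool.Agent.W63.SYSup.isAut_mul (Pool.Agent.W63.SYSup.isAut_mul hα' hβ) hα
    · rw [Perm.mul_apply, Perm.mul_apply, hβh]; simp
  · rintro ⟨β, hβ, hβh⟩
    refine ⟨α * β * α⁻¹, ?_, ?_⟩
    · have := Pool.Agent.W63.SYSup.isAut_mul (Pool.Agent.W63.SYSup.isAut_mul hα hβ) hα'
      rw [← Perm.coe_mul, ← Perm.coe_mul, ← map_mul, ← map_mul] at this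
      have e : a * (a⁻¹ * b * a) * a⁻¹ = b := by group
      rwa [e] at this
    · have e2 : (α⁻¹ : Perm (Fin s)) (α h) = h := by simp
      rw [Perm.mul_apply, Perm.mul_apply, e2, hβh]

theorem bad_aut (C : Net I Bool s) (θ : (ι → P) →* Perm I) (a : ι → P) (α : Perm (Fin s))
    (hα : C.IsAut (θ a) α) (h : Fin s) :
    bad ((stabG C (α h)).comap θ) = bad ((stabG C h).comap θ) := by
  have key : ∀ i (x : P), a⁻¹ * Pi.mulSingle i x * a = Pi.mulSingle i ((a i)⁻¹ * x * a i) := by
    intro i x
    funext j
    by_cases hj : j = i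
    · subst hj
      simp
    · simp [Pi.mulSingle_eq_of_ne hj]
  ext i
  refine not_congr ⟨fun hh x => ?_, fun hh x => ?_⟩
  · have := (mem_comap_aut C θ a _ α hα h).1 (hh (a i * x * (a i)⁻¹))
    rw [key] at this
    have e : (a i)⁻¹ * (a i * x * (a i)⁻¹) * a i = x := by group
    rwa [e] at this
  · rw [mem_comap_aut C θ a _ α hα h, key]
    exact hh _

end conj

section inst

variable {m : ℕ} {B : Type} [Fintype B] [DecidableEq B]

/-- the input variables: an edge and a value for each of its two ends -/
abbrev Idx (m : ℕ) (B : Type) := Fin 4 × V m × B × B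

/-- renaming the values of every variable -/
def actP (a : V m → Perm B) : Perm (Idx m B) where
  toFun i := (i.1, i.2.1, a i.2.1 i.2.2.1, a (sg m i.1 i.2.1) i.2.2.2)
  invFun i := (i.1, i.2.1, (a i.2.1)⁻¹ i.2.2.1, (a (sg m i.1 i.2.1))⁻¹ i.2.2.2)
  left_inv i := by simp
  right_inv i := by simp

/-- renaming the values, as a homomorphism -/
def actHom (m : ℕ) (B : Type) [Fintype B] [DecidableEq B] :
    (V m → alternatingGroup B) →* Perm (Idx m B) where
  toFun a := actP fun v => a v
  map_one' := by ext i <;> simp [actP]
  map_mul' a b := by ext i <;> simp [actP]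

/-- the instance with edge labels `β` -/
def X (ed : D ≃ B) (β : Fin 4 × V m → ZMod 2) (i : Idx m B) : Bool :=
  decide (par (ed.symm i.2.2.1) = 0 ∧ par (ed.symm i.2.2.2) = 0 ∧
    ed.symm i.2.2.1 (Sum.inl i.1) + ed.symm i.2.2.2 (Sum.inr i.1) = β (i.1, i.2.1))

/-- translation of the values -/
def sh (ed : D ≃ B) (d : D) : Perm B := ed.permCongr (Equiv.addRight d)

omit [Fintype B] [DecidableEq B] in
theorem sh_apply (ed : D ≃ B) (d : D) (b : B) : sh ed d b = ed (ed.symm b + d) := rfl

omit [Fintype B] [DecidableEq B] in
theorem sh_zero (ed : D ≃ B) : sh ed 0 = 1 := by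
  ext b : 1
  rw [sh_apply, add_zero, apply_symm_apply, Perm.one_apply]

theorem sh_mem (ed : D ≃ B) {d : D} (h : Ev d) : sh ed d ∈ alternatingGroup B := by
  rw [Perm.mem_alternatingGroup, sh, Perm.sign_permCongr]
  exact h.2

omit [Fintype B] [DecidableEq B] in
theorem X_sh (ed : D ≃ B) (β : Fin 4 × V m → ZMod 2) (c : V m → D) (hc : ∀ v, par (c v) = 0) :
    X ed β ∘ actP (fun v => sh ed (c v)) = X ed (β + cob c) := by
  funext i
  obtain ⟨k, v, b, b'⟩ := i
  simp only [Function.comp_apply, X, actP, coe_fn_mk, sh_apply, symm_apply_apply, par_add, hc,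
    add_zero, Pi.add_apply, cob]
  congr 1
  refine propext (and_congr_right fun _ => and_congr_right fun _ => ?_)
  constructor
  · intro h
    linear_combination h - z2 (c v (Sum.inl k)) - z2 (c (sg m k v) (Sum.inr k))
  · intro h
    linear_combination h + z2 (c v (Sum.inl k)) + z2 (c (sg m k v) (Sum.inr k))

open Classical in
/-- an instance as an assignment of all input variables -/
noncomputable def ext {J' : Type} (e : Idx m B ↪ J') (x : Idx m B → Bool) (j : J') : Bool :=
  decide (∃ i, e i = j ∧ x i = true)

omit [Fintype B] [DecidableEq B] in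
open Classical in
theorem ext_apply {J' : Type} (e : Idx m B ↪ J') (x : Idx m B → Bool) (i : Idx m B) :
    ext e x (e i) = x i := by
  unfold ext
  by_cases h : x i = true
  · rw [h, decide_eq_true_eq]
    exact ⟨i, rfl, h⟩
  · rw [Bool.not_eq_true] at h
    rw [h, decide_eq_false_iff_not]
    rintro ⟨i', h1, h2⟩
    rw [e.injective h1, h] at h2
    simp at h2

omit [Fintype B] [DecidableEq B] in
open Classical in
theorem ext_of_notMem {J' : Type} (e : Idx m B ↪ J') (x : Idx m B → Bool) (j : J')
    (hj : j ∉ Set.range e) : ext e x j = false := by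
  unfold ext
  rw [decide_eq_false_iff_not]
  rintro ⟨i', h1, h2⟩
  exact hj ⟨i', h1⟩

omit [Fintype B] [DecidableEq B] in
theorem ext_comp {J' : Type} (e : Idx m B ↪ J') (x : Idx m B → Bool) (π : Perm (Idx m B)) :
    ext e x ∘ π.viaEmbedding e = ext e (x ∘ π) := by
  funext j
  by_cases hj : j ∈ Set.range e
  · obtain ⟨i, rfl⟩ := hj
    rw [Function.comp_apply, Perm.viaEmbedding_apply, ext_apply, ext_apply, Function.comp_apply]
  · rw [Function.comp_apply, Perm.viaEmbedding_apply_of_notMem _ _ _ hj, ext_of_notMem _ _ _ hj,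
      ext_of_notMem _ _ _ hj]

/-- the renamings as permutations of all input variables -/
noncomputable def ren {J' : Type} (e : Idx m B ↪ J') :
    (V m → alternatingGroup B) →* Perm J' :=
  (Perm.viaEmbeddingHom e).comp (actHom m B)

theorem ren_apply {J' : Type} (e : Idx m B ↪ J') (a : V m → alternatingGroup B) :
    ren e a = (actP fun v => (a v : Perm B)).viaEmbedding e := rfl

/-- an even renaming moving all values -/
theorem exists_move (ed : D ≃ B) : ∃ p : alternatingGroup B, ∀ b, (p : Perm B) b ≠ b := by
  refine ⟨⟨sh ed (Pi.single (Sum.inl 0) 1 + Pi.single (Sum.inl 1) 1), sh_mem ed (ev_two _ _)⟩, ?_⟩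
  intro b h
  have h1 : ed.symm b + (Pi.single (Sum.inl 0) 1 + Pi.single (Sum.inl 1) 1 : D) = ed.symm b := by
    have h2 := congrArg ed.symm h
    simpa [sh_apply] using h2
  have h3 := add_eq_left.1 h1
  have h4 := congrFun h3 (Sum.inl 0)
  simp at h4

open Classical in
/-- the support of a gate -/
noncomputable def supp [NeZero m] {J' : Type} {s : ℕ} (e : Idx m B ↪ J') (C : Net J' Bool s)
    (g : Fin s) : Finset (V m) :=
  univ.filter fun v => v ∈ bad ((stabG C g).comap (ren e))

/-- **The key lemma.** -/
theorem val_tw [NeZero m] {J' : Type} {s : ℕ} (ed : D ≃ B) (e : Idx m B ↪ J') (C : Net J' Bool s)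
    (κ : ℕ) (hm : 25600 * (4 * κ) < m ^ 2) (hκ : ∀ g, (supp e C g).card ≤ 2 * κ) (g : Fin s)
    (v : V m) (hv : Good (supp e C g) v) :
    C.val (ext e (X ed (tw v))) g = C.val (ext e (X ed 0)) g := by
  classical
  induction g using WellFoundedLT.induction generalizing v with
  | ind g ih =>
    rcases hg : C.gate g with j | ⟨w, f⟩
    · rw [val_inl C _ hg, val_inl C _ hg]
      by_contra hne
      -- the gate reads an input at the edge of `v`
      obtain ⟨i, rfl⟩ : j ∈ Set.range e := by
        by_contra hj
        rw [ext_of_notMem _ _ _ hj, ext_of_notMem _ _ _ hj] at hne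
        exact hne rfl
      rw [ext_apply, ext_apply] at hne
      have hiv : i.2.1 = v := by
        by_contra h
        apply hne
        have h1 : tw v (i.1, i.2.1) = 0 := by
          unfold tw
          rw [if_neg]
          intro h2
          exact h (Prod.mk.inj h2).2
        simp only [X, h1, Pi.zero_apply]
      have hb : v ∈ bad ((stabG C g).comap (ren e)) := by
        intro hall
        obtain ⟨p, hp⟩ := exists_move ed
        obtain ⟨α, hα, hαg⟩ := hall p
        have h1 := hα.1 g
        rw [hαg, hg, Sum.map_inl, ren_apply, Perm.viaEmbedding_apply] at h1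
        have h2 := e.injective (Sum.inl.inj h1)
        have h3 := congrArg (fun i : Idx m B => i.2.2.1) h2
        simp only [actP, coe_fn_mk, hiv, Pi.mulSingle_eq_same] at h3
        exact hp _ h3.symm
      exact hv.1 (mem_filter.2 ⟨mem_univ _, hb⟩)
    · -- a gate with wires
      have hch : ∀ T : Finset (V m), ∃ (u : V m) (a : V m → alternatingGroup B)
          (α : Perm (Fin s)), T.card ≤ 2 * κ →
            Good T u ∧ ext e (X ed (tw u)) ∘ ren e a = ext e (X ed (tw v)) ∧
              C.IsAut (ren e a) α ∧ α g = g := by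
        intro T
        by_cases hT : T.card ≤ 2 * κ
        · obtain ⟨u, hu⟩ := exists_good (supp e C g ∪ T) (by
            have := card_union_le (supp e C g) T
            have := hκ g
            omega)
          have hu1 : Good (supp e C g) u := hu.mono subset_union_left
          obtain ⟨c, hc1, hc2, hc3⟩ := hu1.rel hv
          set a : V m → alternatingGroup B := fun x => ⟨sh ed (c x), sh_mem ed (hc1 x)⟩ with ha
          have ha1 : a ∈ (stabG C g).comap (ren e) := by
            refine mem_of_bad _ _ fun x hx => ?_
            have h1 : c x = 0 := hc2 x (by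
              rw [mem_coe]; exact mem_filter.2 ⟨mem_univ _, hx⟩)
            rw [ha]
            refine Subtype.ext ?_
            dsimp only
            rw [h1, sh_zero]
            rfl
          obtain ⟨α, hα, hαg⟩ := ha1
          refine ⟨u, a, α, fun _ => ⟨hu.mono subset_union_right, ?_, hα, hαg⟩⟩
          rw [ren_apply, ext_comp]
          congr 1
          have h2 : (actP fun x => ((a x : alternatingGroup B) : Perm B)) =
              actP fun x => sh ed (c x) := rfl
          rw [h2, X_sh ed _ c (fun x => (hc1 x).1), hc3, ← add_assoc]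
          have h4 : tw u + tw u = 0 := by
            funext x
            exact z2 _
          rw [h4, zero_add]
        · exact ⟨v, 1, 1, fun h => absurd h hT⟩
      choose u a α hα using hch
      set F : Fin s → Fin s := fun h => α (supp e C h) h with hF
      have hsF : ∀ h, supp e C (F h) = supp e C h := by
        intro h
        have h1 := (hα (supp e C h) (hκ h)).2.2.1
        unfold supp
        rw [hF]
        dsimp only
        rw [bad_aut C (ren e) _ _ h1 h]
      have hFinj : Function.Injective F := by
        intro h h' hh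
        have h1 : supp e C h = supp e C h' := by rw [← hsF h, ← hsF h', hh]
        rw [hF] at hh
        dsimp only at hh
        rw [h1] at hh
        exact (α _).injective hh
      have hwα : ∀ T : Finset (V m), T.card ≤ 2 * κ →
          w.map (Prod.map id (α T)) = w := by
        intro T hT
        have h1 := (hα T hT).2.2.1.1 g
        rw [(hα T hT).2.2.2, hg, Sum.map_inr] at h1
        exact ((Prod.mk.inj (Sum.inr.inj h1)).1).symm
      have hwF : w.map (Prod.map id F) = w := by
        ext ⟨l, h'⟩
        obtain ⟨h, rfl⟩ := (Finite.injective_iff_surjective.1 hFinj) h'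
        have h1 : Function.Injective (Prod.map id F : ℕ × Fin s → ℕ × Fin s) :=
          Function.injective_id.prodMap hFinj
        have h2 : Function.Injective (Prod.map id (α (supp e C h)) : ℕ × Fin s → ℕ × Fin s) :=
          Function.injective_id.prodMap (α _).injective
        have h3 := Multiset.count_map_eq_count' (Prod.map id F) w h1 (l, h)
        have h4 := Multiset.count_map_eq_count' (Prod.map id (α (supp e C h))) w h2 (l, h)
        rw [hwα _ (hκ h)] at h4
        simp only [Prod.map_apply, id] at h3 h4
        rw [h3, ← h4]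
      rw [val_inr C _ hg, val_inr C _ hg]
      congr 1
      have h5 : w.map (fun p => (p.1, C.val (ext e (X ed (tw v))) p.2)) =
          w.map (fun p => (p.1, C.val (ext e (X ed 0)) (F p.2))) := by
        refine Multiset.map_congr rfl fun p hp => ?_
        obtain ⟨l, h⟩ := p
        have h6 := hα (supp e C h) (hκ h)
        have h7 : C.val (ext e (X ed (tw v))) h =
            C.val (ext e (X ed (tw (u (supp e C h))))) (F h) := by
          rw [hF]
          dsimp only
          rw [val_aut h6.2.2.1, h6.2.1]
        have h8 : (l, F h) ∈ w := by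
          rw [← hwF]
          exact Multiset.mem_map.2 ⟨(l, h), hp, rfl⟩
        dsimp only
        rw [h7, ih (F h) (C.acyclic g w f hg _ h8) (u (supp e C h)) (by rw [hsF]; exact h6.1)]
      rw [h5]
      conv_rhs => rw [← hwF]
      rw [Multiset.map_map]
      rfl

/-- **The lower bound**: a circuit which distinguishes the twisted instances from the instance
without a twist has many gates, or few symmetries. -/
theorem lower [NeZero m] {J' : Type} {s : ℕ} (ed : D ≃ B) (hB : 5 ≤ Fintype.card B)
    (e : Idx m B ↪ J') (C : Net J' Bool s) (κ : ℕ) (hm : 102400 * κ < m ^ 2)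
    (hC : ∀ v, C.val (ext e (X ed (tw v))) C.out ≠ C.val (ext e (X ed 0)) C.out) :
    2 ^ (κ + 1) ≤ s * (symG C).relIndex (ren e).range := by
  classical
  by_contra hlt
  rw [not_le, ← Subgroup.index_comap] at hlt
  have hP : commutator (alternatingGroup B) = ⊤ :=
    commutator_alternatingGroup_eq_top (by rwa [Nat.card_eq_fintype_card])
  have hκ : ∀ g, (supp e C g).card ≤ 2 * κ := fun g =>
    card_bad_le hP _ κ (lt_of_le_of_lt (index_stab C (ren e) g) hlt)
  obtain ⟨v, hv⟩ := exists_good (supp e C C.out) (by have := hκ C.out; omega)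
  exact hC v (val_tw ed e C κ (by omega) hκ C.out v hv)

end inst

end Pool.Agent.W950.SC
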