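import Mathlib

/-!
# Subgroups of small index of a power of a perfect group
-/

namespace Pool.Agent.W950.SC

open Finset
open scoped commutatorElement

variable {ι P : Type} [Group P]

/-- the values at `i` of the elements of `H` which are trivial at all `j` with `ρ i < ρ j` -/
def fac (H : Subgroup (ι → P)) (ρ : ι → ℕ) (i : ι) : Subgroup P where
  carrier := {x | ∃ a ∈ H, a i = x ∧ ∀ j, ρ i < ρ j → a j = 1}
  one_mem' := ⟨1, H.one_mem, rfl, fun _ _ => rfl⟩
  mul_mem' := by
    rintro x y ⟨a, ha, rfl, ha'⟩ ⟨b, hb, rfl, hb'⟩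
    refine ⟨a * b, H.mul_mem ha hb, rfl, fun j hj => ?_⟩
    rw [Pi.mul_apply, ha' j hj, hb' j hj, one_mul]
  inv_mem' := by
    rintro x ⟨a, ha, rfl, ha'⟩
    refine ⟨a⁻¹, H.inv_mem ha, rfl, fun j hj => ?_⟩
    rw [Pi.inv_apply, ha' j hj, inv_one]

variable [Fintype ι] [DecidableEq ι] [Finite P]

open Classical in
/-- there are few factors which are not full -/
theorem card_bad (H : Subgroup (ι → P)) (ρ : ι → ℕ) :
    2 ^ (univ.filter fun i => fac H ρ i ≠ ⊤).card ≤ H.index := by
  set Z := univ.filter fun i => fac H ρ i ≠ ⊤ with hZ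
  have hx : ∀ i, ∃ x, i ∈ Z → x ∉ fac H ρ i := by
    intro i
    by_cases hi : i ∈ Z
    · have h2 := (mem_filter.1 hi).2
      by_contra hcon
      push Not at hcon
      apply h2
      rw [Subgroup.eq_top_iff']
      intro x
      exact (hcon x).2
    · exact ⟨1, fun h => absurd h hi⟩
  choose x hx using hx
  let aS : Finset ι → ι → P := fun S i => if i ∈ S then x i else 1
  let F : Z.powerset → (ι → P) ⧸ H := fun S => QuotientGroup.mk (aS S.1)
  have hinj : Function.Injective F := by
    rintro ⟨S, hS⟩ ⟨T, hT⟩ hST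
    rw [mem_powerset] at hS hT
    by_contra hne
    have hne' : S ≠ T := fun h => hne (by subst h; rfl)
    have hb : (aS S)⁻¹ * aS T ∈ H := QuotientGroup.eq.1 hST
    have hnon : (symmDiff S T).Nonempty := by
      rw [nonempty_iff_ne_empty]
      intro h
      exact hne' (symmDiff_eq_bot.1 h)
    obtain ⟨i, hi, himax⟩ := exists_max_image (symmDiff S T) ρ hnon
    have hiZ : i ∈ Z := by
      rcases mem_symmDiff.1 hi with h | h
      · exact hS h.1
      · exact hT h.1
    have habove : ∀ j, ρ i < ρ j → ((aS S)⁻¹ * aS T) j = 1 := by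
      intro j hj
      have hj' : j ∉ symmDiff S T := fun h => absurd (himax j h) (not_le.2 hj)
      have hiff : j ∈ S ↔ j ∈ T := by
        rw [mem_symmDiff] at hj'
        tauto
      have : aS S j = aS T j := by
        simp only [aS, hiff]
      rw [Pi.mul_apply, Pi.inv_apply, this, inv_mul_cancel]
    have hmem : ((aS S)⁻¹ * aS T) i ∈ fac H ρ i := ⟨_, hb, rfl, habove⟩
    apply hx i hiZ
    rcases mem_symmDiff.1 hi with h | h
    · have e : ((aS S)⁻¹ * aS T) i = (x i)⁻¹ := by
        simp only [aS, Pi.mul_apply, Pi.inv_apply, h.1, h.2, if_true, if_false, mul_one]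
      rw [e] at hmem
      exact (Subgroup.inv_mem_iff _).1 hmem
    · have e : ((aS S)⁻¹ * aS T) i = x i := by
        simp only [aS, Pi.mul_apply, Pi.inv_apply, h.1, h.2, if_true, if_false, inv_one, one_mul]
      rw [e] at hmem
      exact hmem
  have h1 := Nat.card_le_card_of_injective F hinj
  have h2 : Nat.card Z.powerset = 2 ^ Z.card := by
    rw [Nat.card_eq_fintype_card, Fintype.card_coe, card_powerset]
  rw [h2] at h1
  exact h1

/-- the factors which are not contained in `H` -/
def bad (H : Subgroup (ι → P)) : Set ι := {i | ¬ ∀ x, Pi.mulSingle i x ∈ H}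

omit [Finite P] in
theorem mem_of_bad (H : Subgroup (ι → P)) (a : ι → P) (ha : ∀ i ∈ bad H, a i = 1) : a ∈ H := by
  refine Subgroup.pi_mem_of_mulSingle_mem a fun i => ?_
  by_cases hi : i ∈ bad H
  · rw [ha i hi, Pi.mulSingle_one]
    exact H.one_mem
  · have hi : ¬ ¬ ∀ x, Pi.mulSingle i x ∈ H := hi
    rw [not_not] at hi
    exact hi _

open Classical in
/-- a subgroup of small index of a power of a perfect group contains almost all factors -/
theorem card_bad_le (hP : commutator P = ⊤) (H : Subgroup (ι → P)) (κ : ℕ)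
    (hκ : H.index < 2 ^ (κ + 1)) : (univ.filter fun i => i ∈ bad H).card ≤ 2 * κ := by
  set e := Fintype.equivFin ι
  set ρ : ι → ℕ := fun i => (e i : ℕ) with hρ
  set ρ' : ι → ℕ := fun i => Fintype.card ι - (e i : ℕ) with hρ'
  have hc : ∀ ρ₀ : ι → ℕ, (univ.filter fun i => fac H ρ₀ i ≠ ⊤).card ≤ κ := by
    intro ρ₀
    have h1 := lt_of_le_of_lt (card_bad H ρ₀) hκ
    have h3 := (Nat.pow_lt_pow_iff_right (by norm_num : 1 < 2)).1 h1
    omega
  have hsub : (univ.filter fun i => i ∈ bad H) ⊆
      (univ.filter fun i => fac H ρ i ≠ ⊤) ∪ (univ.filter fun i => fac H ρ' i ≠ ⊤) := by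
    intro i hi
    by_contra hcon
    rw [mem_union, not_or, mem_filter, mem_filter] at hcon
    simp only [mem_univ, true_and, ne_eq, not_not] at hcon
    obtain ⟨hf, hf'⟩ := hcon
    have hle : commutator P ≤ H.comap (MonoidHom.mulSingle (fun _ : ι => P) i) := by
      rw [commutator_def, Subgroup.commutator_le]
      intro x _ y _
      have hx : x ∈ fac H ρ i := by rw [hf]; trivial
      have hy : y ∈ fac H ρ' i := by rw [hf']; trivial
      obtain ⟨u, hu, hui, huj⟩ := hx
      obtain ⟨v, hv, hvi, hvj⟩ := hy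
      rw [Subgroup.mem_comap]
      have e' : MonoidHom.mulSingle (fun _ : ι => P) i ⁅x, y⁆ = ⁅u, v⁆ := by
        funext j
        rw [MonoidHom.mulSingle_apply]
        by_cases hji : j = i
        · subst hji
          rw [Pi.mulSingle_eq_same, ← hui, ← hvi]
          rfl
        · rw [Pi.mulSingle_eq_of_ne hji]
          have e2 : ⁅u, v⁆ j = ⁅u j, v j⁆ := rfl
          rw [e2]
          have hne : (e j : ℕ) ≠ e i := fun h => hji (e.injective (Fin.ext h))
          rcases lt_or_gt_of_ne hne with h | h
          · rw [hvj j (by have := (e i).2; have := (e j).2; simp only [hρ']; omega),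
              commutatorElement_one_right]
          · rw [huj j h, commutatorElement_one_left]
      rw [e', commutatorElement_def]
      exact H.mul_mem (H.mul_mem (H.mul_mem hu hv) (H.inv_mem hu)) (H.inv_mem hv)
    refine (mem_filter.1 hi).2 fun x => ?_
    have h5 : x ∈ H.comap (MonoidHom.mulSingle (fun _ : ι => P) i) := hle (by rw [hP]; trivial)
    rw [Subgroup.mem_comap, MonoidHom.mulSingle_apply] at h5
    exact h5
  have := card_le_card hsub
  have := card_union_le (univ.filter fun i => fac H ρ i ≠ ⊤) (univ.filter fun i => fac H ρ' i ≠ ⊤)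
  have := hc ρ
  have := hc ρ'
  omega

end Pool.Agent.W950.SC
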